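import Pool.Agent.H326.FC.C
import Pool.Agent.H326.FC.D
import Pool.Agent.H573.AHB.UnJ

/-!
# MP_509488_nt: the signatures (s, p, p) and (p, p, s), the two equal powers being of squares

For a positive proportion of the primes `s` (the sum of `1/s` over these primes in
`[X^{5/8}, X]` is bounded below) there are at least `s^δ` primes `q ≡ 1 (mod s)` such that for all
odd primes `p ≤ s^δ` every solution of `x^s + y^p = z^p` with squares `y, z`, and every solution of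
`x^p + y^p = z^s` with squares `x, y` and `p ∤ z`, is congruent to a trivial one modulo all `q`.
-/

namespace Pool.Agent.Results.MP_509488_nt.EqualExponentsManyPrimes

open Pool.Agent.H573.AHB Pool.Agent.H326.FC

theorem result :
    ∃ δ : ℝ, 0 < δ ∧ ∃ S : Set ℕ, (∀ s ∈ S, s.Prime) ∧
      (∃ c : ℝ, 0 < c ∧ ∃ X₀ : ℕ, ∀ X : ℕ, X₀ ≤ X →
        c ≤ ∑ᶠ s ∈ {s : ℕ | s ∈ S ∧ (X : ℝ) ^ (5 / 8 : ℝ) ≤ s ∧ s ≤ X}, (1 : ℝ) / s) ∧
      ∀ s ∈ S, ∃ G : Finset ℕ, (s : ℝ) ^ δ ≤ (G.card : ℝ) ∧ (∀ q ∈ G, q.Prime ∧ s ∣ q - 1) ∧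
        ∀ p : ℕ, p.Prime → p ≠ 2 → (p : ℝ) ≤ (s : ℝ) ^ δ →
          (∀ x y z : ℕ, 0 < x → 0 < y → 0 < z → Nat.Coprime y z → IsSquare y → IsSquare z →
            x ^ s + y ^ p = z ^ p →
              (Even x → p ∣ x ∧ (∀ q ∈ G, q ∣ x) ∧ Real.exp ((s : ℝ) ^ δ) ≤ x) ∧
              (Odd x → ¬ p ∣ x ∧ (∀ q ∈ G, q ∣ y * z) ∧
                Real.exp ((s : ℝ) ^ δ) ≤ ((y * z : ℕ) : ℝ))) ∧
          (∀ x y z : ℕ, 0 < x → 0 < y → 0 < z → Nat.Coprime x y → IsSquare x → IsSquare y →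
            (¬ p ∣ z ∨ p % 4 = 3) → x ^ p + y ^ p = z ^ s →
              (∀ q ∈ G, q ∣ x * y) ∧ Real.exp ((s : ℝ) ^ δ) ≤ ((x * y : ℕ) : ℝ)) := by
  have hus : USparse (fun m q n => W4 m q n ∨ W5 m q n) := usparse_W4.or usparse_W5
  obtain ⟨δ, hδ0, S, hS, hdens⟩ := engine 4 (by norm_num) _ hus
  refine ⟨δ, hδ0, S, fun s hs => (hS s hs).1, hdens, ?_⟩
  intro s hs
  obtain ⟨hsp, hs2, G, hG1, hG2⟩ := hS s hs
  refine ⟨G, hG1, fun q hq => ⟨(hG2 q hq).1, (hG2 q hq).2.2.2.1⟩, ?_⟩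
  intro p hp hp2 hpd
  obtain ⟨i, rfl⟩ : ∃ i, p = 2 * i + 1 := hp.odd_of_ne_two hp2
  have hi : 1 ≤ i := by
    have := hp.two_le
    omega
  have hGne : G.Nonempty := by
    rw [← Finset.card_pos]
    have h1 : (0 : ℝ) < (s : ℝ) ^ δ := by
      apply Real.rpow_pos_of_pos
      exact_mod_cast (by omega : 0 < s)
    have h2 : (0 : ℝ) < (G.card : ℝ) := lt_of_lt_of_le h1 hG1
    exact_mod_cast h2
  obtain ⟨q0, hq0⟩ := hGne
  have hbig : ∀ w : ℕ, w ≠ 0 → (∀ q ∈ G, q ∣ w) → Real.exp ((s : ℝ) ^ δ) ≤ w := by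
    intro w hw0 hw
    refine (Real.exp_le_exp.mpr hG1).trans (big_of_dvd G w hw0 ?_)
    intro q hq
    obtain ⟨k1, k2, -⟩ := hG2 q hq
    exact ⟨k1, by omega, hw q hq⟩
  constructor
  · rintro x y z hx0 hy0 hz0 hco ⟨b, rfl⟩ ⟨c, rfl⟩ heq
    have hb0 : b ≠ 0 := by
      rintro rfl
      simp at hy0
    have hc0 : c ≠ 0 := by
      rintro rfl
      simp at hz0
    have hcob : IsCoprime (c : ℤ) (b : ℤ) := by
      rw [Nat.isCoprime_iff_coprime]
      exact (hco.coprime_mul_right.coprime_mul_right_right).symm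
    have heq' : (x : ℤ) ^ s + (b : ℤ) ^ (2 * (2 * i + 1)) = (c : ℤ) ^ (2 * (2 * i + 1)) := by
      rw [pow_mul, pow_mul, pow_two (b : ℤ), pow_two (c : ℤ)]
      exact_mod_cast heq
    constructor
    · intro hx
      have hmain : ∀ q ∈ G, (2 * i + 1) ∣ x ∧ q ∣ x := by
        intro q hq
        obtain ⟨k1, -, -, k4, k5⟩ := hG2 q hq
        obtain ⟨k6, k7⟩ := k5 i hpd
        push Not at k7
        obtain ⟨g1, g2⟩ := diff_even i ⟨hi, hp⟩ s q hsp hs2 k1 k6 k4 k7.2 (x : ℤ) (b : ℤ) (c : ℤ)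
          ((Int.even_coe_nat x).mpr hx) hcob heq'
        exact ⟨Int.natCast_dvd_natCast.mp g1, Int.natCast_dvd_natCast.mp g2⟩
      exact ⟨(hmain q0 hq0).1, fun q hq => (hmain q hq).2,
        hbig _ (by omega) (fun q hq => (hmain q hq).2)⟩
    · intro hx
      have hmain : ∀ q ∈ G, ¬ (2 * i + 1) ∣ x ∧ q ∣ b * c := by
        intro q hq
        obtain ⟨k1, -, -, k4, k5⟩ := hG2 q hq
        obtain ⟨k6, k7⟩ := k5 i hpd
        push Not at k7
        obtain ⟨g1, g2⟩ := diff_odd i ⟨hi, hp⟩ s q hsp hs2 k1 k6 k4 k7.1 (x : ℤ) (b : ℤ) (c : ℤ)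
          ((Int.odd_coe_nat x).mpr hx) hcob heq'
        exact ⟨fun h => g1 (Int.natCast_dvd_natCast.mpr h), by exact_mod_cast g2⟩
      have hdvd : ∀ q ∈ G, q ∣ b * b * (c * c) := fun q hq =>
        (hmain q hq).2.trans ⟨b * c, by ring⟩
      exact ⟨(hmain q0 hq0).1, hdvd, hbig _ (Nat.mul_ne_zero (Nat.mul_ne_zero hb0 hb0)
        (Nat.mul_ne_zero hc0 hc0)) hdvd⟩
  · rintro x y z hx0 hy0 hz0 hco ⟨a, rfl⟩ ⟨b, rfl⟩ hpz heq
    have ha0 : a ≠ 0 := by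
      rintro rfl
      simp at hx0
    have hb0 : b ≠ 0 := by
      rintro rfl
      simp at hy0
    have hcab' : Nat.Coprime a b := hco.coprime_mul_right.coprime_mul_right_right
    have hcab : IsCoprime (a : ℤ) (b : ℤ) := by
      rw [Nat.isCoprime_iff_coprime]
      exact hcab'
    have heqn : (a ^ (2 * i + 1)) ^ 2 + (b ^ (2 * i + 1)) ^ 2 = z ^ s := by
      rw [← heq]
      ring
    have heq' : (a : ℤ) ^ (2 * (2 * i + 1)) + (b : ℤ) ^ (2 * (2 * i + 1)) = (z : ℤ) ^ s := by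
      rw [pow_mul, pow_mul, pow_two (a : ℤ), pow_two (b : ℤ)]
      exact_mod_cast heq
    have hpz' : ¬ (2 * i + 1) ∣ z := by
      rcases hpz with h | h
      · exact h
      · intro hdz
        have hFp : Fact (2 * i + 1).Prime := ⟨hp⟩
        have h1 : (2 * i + 1) ∣ (a ^ (2 * i + 1)) ^ 2 + (b ^ (2 * i + 1)) ^ 2 := by
          rw [heqn]
          exact dvd_pow hdz (by omega)
        have h2 : ((a ^ (2 * i + 1) : ℕ) : ZMod (2 * i + 1)) ^ 2 =
            -((b ^ (2 * i + 1) : ℕ) : ZMod (2 * i + 1)) ^ 2 := by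
          rw [← ZMod.natCast_eq_zero_iff] at h1
          push_cast at h1 ⊢
          exact eq_neg_of_add_eq_zero_left h1
        have h3 : ((b ^ (2 * i + 1) : ℕ) : ZMod (2 * i + 1)) = 0 := by
          by_contra hb
          exact ZMod.mod_four_ne_three_of_sq_eq_neg_sq' hb h2 h
        rw [h3, zero_pow two_ne_zero, neg_zero] at h2
        have h4 : ((a ^ (2 * i + 1) : ℕ) : ZMod (2 * i + 1)) = 0 := by
          exact (pow_eq_zero_iff two_ne_zero).mp h2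
        rw [ZMod.natCast_eq_zero_iff] at h3 h4
        have h5 := Nat.dvd_gcd (hp.dvd_of_dvd_pow h4) (hp.dvd_of_dvd_pow h3)
        rw [hcab'] at h5
        exact hp.one_lt.ne' (Nat.dvd_one.mp h5)
    have hmain : ∀ q ∈ G, q ∣ a * b := by
      intro q hq
      obtain ⟨k1, -, k3, k4, k5⟩ := hG2 q hq
      obtain ⟨k6, k7⟩ := k5 i hpd
      push Not at k7
      have g := sum_loc' i ⟨hi, hp⟩ s q hsp hs2 k1 k6 k3 k4 k7.1 (a : ℤ) (b : ℤ) (z : ℤ)
        hcab (fun h => hpz' (Int.natCast_dvd_natCast.mp h)) heq'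
      exact_mod_cast g
    have hdvd : ∀ q ∈ G, q ∣ a * a * (b * b) := fun q hq =>
      (hmain q hq).trans ⟨a * b, by ring⟩
    exact ⟨hdvd, hbig _ (Nat.mul_ne_zero (Nat.mul_ne_zero ha0 ha0)
      (Nat.mul_ne_zero hb0 hb0)) hdvd⟩

end Pool.Agent.Results.MP_509488_nt.EqualExponentsManyPrimes
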