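import Pool.Agent.H573.AHB.UnL

/-!
# MP_509488_nt: the signatures (s, p, 2) with square bases

For a positive proportion of the primes `s` (the sum of `1/s` over these primes in
`[X^{5/8}, X]` is bounded below) and all odd primes `p ≤ s^δ`: if `x^s + y^p = z^2` with coprime
positive squares `x, y` and `x` even, then `x` is divisible by `p` and by each of at least `s^δ`
primes `q ≡ 1 (mod s)` which depend on `s` only, and `x ≥ exp(s^δ)`.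
-/

namespace Pool.Agent.Results.MP_509488_nt.LegsManyPrimes

open Pool.Agent.H573.AHB

theorem result :
    ∃ δ : ℝ, 0 < δ ∧ ∃ S : Set ℕ, (∀ s ∈ S, s.Prime) ∧
      (∃ c : ℝ, 0 < c ∧ ∃ X₀ : ℕ, ∀ X : ℕ, X₀ ≤ X →
        c ≤ ∑ᶠ s ∈ {s : ℕ | s ∈ S ∧ (X : ℝ) ^ (5 / 8 : ℝ) ≤ s ∧ s ≤ X}, (1 : ℝ) / s) ∧
      ∀ s ∈ S, ∃ G : Finset ℕ, (s : ℝ) ^ δ ≤ (G.card : ℝ) ∧ (∀ q ∈ G, q.Prime ∧ s ∣ q - 1) ∧
        ∀ p : ℕ, p.Prime → p ≠ 2 → (p : ℝ) ≤ (s : ℝ) ^ δ →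
          ∀ x y z : ℕ, 0 < x → 0 < y → 0 < z → Nat.Coprime x y → IsSquare x → IsSquare y →
            Even x → x ^ s + y ^ p = z ^ 2 →
              p ∣ x ∧ (∀ q ∈ G, q ∣ x) ∧ Real.exp ((s : ℝ) ^ δ) ≤ x := by
  obtain ⟨δ, hδ0, S, hS, hdens⟩ := engine 1 le_rfl (W2 1) (usparse_W2 1 rfl)
  refine ⟨δ, hδ0, S, fun s hs => (hS s hs).1, hdens, ?_⟩
  intro s hs
  obtain ⟨hsp, hs2, G, hG1, hG2⟩ := hS s hs
  refine ⟨G, hG1, fun q hq => ⟨(hG2 q hq).1, (hG2 q hq).2.2.2.1⟩, ?_⟩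
  rintro p hp hp2 hpd x y z hx0 _ _ hco ⟨a, rfl⟩ ⟨b, rfl⟩ hx heq
  obtain ⟨i, rfl⟩ : ∃ i, p = 2 * i + 1 := hp.odd_of_ne_two hp2
  have hi : 1 ≤ i := by
    have := hp.two_le
    omega
  have ha0 : a ≠ 0 := by
    rintro rfl
    simp at hx0
  have hmain : ∀ q ∈ G, (2 * i + 1) ∣ a ∧ q ∣ a := by
    intro q hq
    obtain ⟨k1, -, -, k4, k5⟩ := hG2 q hq
    obtain ⟨k6, k7⟩ := k5 i hpd
    obtain ⟨g1, g2⟩ := leg_loc i ⟨hi, hp⟩ s q hsp hs2 k1 k6 k4 k7 (a : ℤ) (b : ℤ) (z : ℤ) (by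
        rw [Nat.even_mul, or_self] at hx
        exact (Int.even_coe_nat a).mpr hx) (by exact_mod_cast ha0) (by
        rw [Nat.isCoprime_iff_coprime]
        exact hco.coprime_mul_right.coprime_mul_right_right) (by
        rw [pow_mul, pow_mul, pow_two (a : ℤ), pow_two (b : ℤ)]
        exact_mod_cast heq)
    exact ⟨Int.natCast_dvd_natCast.mp g1, Int.natCast_dvd_natCast.mp g2⟩
  have hGne : G.Nonempty := by
    rw [← Finset.card_pos]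
    have h1 : (0 : ℝ) < (s : ℝ) ^ δ := by positivity
    have h2 : (0 : ℝ) < (G.card : ℝ) := lt_of_lt_of_le h1 hG1
    exact_mod_cast h2
  obtain ⟨q0, hq0⟩ := hGne
  have hdvd : ∀ q ∈ G, q ∣ a * a := fun q hq => (hmain q hq).2.mul_right a
  refine ⟨(hmain q0 hq0).1.mul_right a, hdvd, ?_⟩
  refine (Real.exp_le_exp.mpr hG1).trans (big_of_dvd G (a * a) (Nat.mul_ne_zero ha0 ha0) ?_)
  intro q hq
  obtain ⟨k1, k2, -⟩ := hG2 q hq
  exact ⟨k1, by omega, hdvd q hq⟩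

end Pool.Agent.Results.MP_509488_nt.LegsManyPrimes
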