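import Pool.Agent.H573.AHB.UnL

/-!
# MP_509488_nt: the signatures (s, 2, p) with square bases

For a positive proportion of the primes `s` (the sum of `1/s` over these primes in
`[X^{5/8}, X]` is bounded below) and all odd primes `p ≤ s^δ`, every solution of `x^s + y^2 = z^p`
with coprime positive `x, y` and squares `x, z` is congruent to a trivial one: if `x` is even then
it is divisible by `p` and by each of at least `s^δ` primes `q ≡ 1 (mod s)` which depend on `s` only;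
if `x` is odd then it is prime to `p` and `y` is divisible by all these primes `q`.
-/

namespace Pool.Agent.Results.MP_509488_nt.MiddleSquareManyPrimes

open Pool.Agent.H573.AHB

theorem result :
    ∃ δ : ℝ, 0 < δ ∧ ∃ S : Set ℕ, (∀ s ∈ S, s.Prime) ∧
      (∃ c : ℝ, 0 < c ∧ ∃ X₀ : ℕ, ∀ X : ℕ, X₀ ≤ X →
        c ≤ ∑ᶠ s ∈ {s : ℕ | s ∈ S ∧ (X : ℝ) ^ (5 / 8 : ℝ) ≤ s ∧ s ≤ X}, (1 : ℝ) / s) ∧
      ∀ s ∈ S, ∃ G : Finset ℕ, (s : ℝ) ^ δ ≤ (G.card : ℝ) ∧ (∀ q ∈ G, q.Prime ∧ s ∣ q - 1) ∧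
        ∀ p : ℕ, p.Prime → p ≠ 2 → (p : ℝ) ≤ (s : ℝ) ^ δ →
          ∀ x y z : ℕ, 0 < x → 0 < y → 0 < z → Nat.Coprime x y → IsSquare x → IsSquare z →
            x ^ s + y ^ 2 = z ^ p →
              (Even x → p ∣ x ∧ (∀ q ∈ G, q ∣ x) ∧ Real.exp ((s : ℝ) ^ δ) ≤ x) ∧
              (Odd x → ¬ p ∣ x ∧ (∀ q ∈ G, q ∣ y) ∧ Real.exp ((s : ℝ) ^ δ) ≤ y) := by
  have hus : USparse (fun m q n => W2 (-1) m q n ∨ W3 m q n) :=
    (usparse_W2 (-1) rfl).or usparse_W3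
  obtain ⟨δ, hδ0, S, hS, hdens⟩ := engine 1 le_rfl _ hus
  refine ⟨δ, hδ0, S, fun s hs => (hS s hs).1, hdens, ?_⟩
  intro s hs
  obtain ⟨hsp, hs2, G, hG1, hG2⟩ := hS s hs
  refine ⟨G, hG1, fun q hq => ⟨(hG2 q hq).1, (hG2 q hq).2.2.2.1⟩, ?_⟩
  rintro p hp hp2 hpd x y z hx0 hy0 _ hco ⟨a, rfl⟩ ⟨c, rfl⟩ heq
  obtain ⟨i, rfl⟩ : ∃ i, p = 2 * i + 1 := hp.odd_of_ne_two hp2
  have hi : 1 ≤ i := by
    have := hp.two_le
    omega
  have ha0 : a ≠ 0 := by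
    rintro rfl
    simp at hx0
  have hcoa : IsCoprime (a : ℤ) (y : ℤ) := by
    rw [Nat.isCoprime_iff_coprime]
    exact hco.coprime_mul_right
  have heq' : (a : ℤ) ^ (2 * s) + (y : ℤ) ^ 2 = (c : ℤ) ^ (2 * (2 * i + 1)) := by
    rw [pow_mul, pow_mul, pow_two (a : ℤ), pow_two (c : ℤ)]
    exact_mod_cast heq
  have hGne : G.Nonempty := by
    rw [← Finset.card_pos]
    have h1 : (0 : ℝ) < (s : ℝ) ^ δ := by positivity
    have h2 : (0 : ℝ) < (G.card : ℝ) := lt_of_lt_of_le h1 hG1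
    exact_mod_cast h2
  obtain ⟨q0, hq0⟩ := hGne
  have hbig : ∀ w : ℕ, w ≠ 0 → (∀ q ∈ G, q ∣ w) → Real.exp ((s : ℝ) ^ δ) ≤ w := by
    intro w hw0 hw
    refine (Real.exp_le_exp.mpr hG1).trans (big_of_dvd G w hw0 ?_)
    intro q hq
    obtain ⟨k1, k2, -⟩ := hG2 q hq
    exact ⟨k1, by omega, hw q hq⟩
  constructor
  · intro hx
    have hmain : ∀ q ∈ G, (2 * i + 1) ∣ a ∧ q ∣ a := by
      intro q hq
      obtain ⟨k1, -, -, k4, k5⟩ := hG2 q hq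
      obtain ⟨k6, k7⟩ := k5 i hpd
      push Not at k7
      obtain ⟨g1, g2⟩ := mid_loc_even i ⟨hi, hp⟩ s q hsp hs2 k1 k6 k4 k7.1 (a : ℤ) (y : ℤ) (c : ℤ)
        (by
          rw [Nat.even_mul, or_self] at hx
          exact (Int.even_coe_nat a).mpr hx) (by exact_mod_cast ha0) hcoa heq'
      exact ⟨Int.natCast_dvd_natCast.mp g1, Int.natCast_dvd_natCast.mp g2⟩
    have hdvd : ∀ q ∈ G, q ∣ a * a := fun q hq => (hmain q hq).2.mul_right a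
    exact ⟨(hmain q0 hq0).1.mul_right a, hdvd, hbig _ (Nat.mul_ne_zero ha0 ha0) hdvd⟩
  · intro hx
    have hmain : ∀ q ∈ G, ¬ (2 * i + 1) ∣ a ∧ q ∣ y := by
      intro q hq
      obtain ⟨k1, -, -, k4, k5⟩ := hG2 q hq
      obtain ⟨k6, k7⟩ := k5 i hpd
      push Not at k7
      obtain ⟨g1, g2⟩ := mid_loc_odd i ⟨hi, hp⟩ s q hsp hs2 k1 k6 k4 k7.2 (a : ℤ) (y : ℤ) (c : ℤ)
        (by
          rw [Nat.odd_mul] at hx
          exact (Int.odd_coe_nat a).mpr hx.1) hcoa heq'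
      exact ⟨fun h => g1 (Int.natCast_dvd_natCast.mpr h), Int.natCast_dvd_natCast.mp g2⟩
    refine ⟨?_, fun q hq => (hmain q hq).2, hbig _ (by omega) (fun q hq => (hmain q hq).2)⟩
    intro h
    rcases hp.dvd_mul.mp h with h | h
    · exact (hmain q0 hq0).1 h
    · exact (hmain q0 hq0).1 h

end Pool.Agent.Results.MP_509488_nt.MiddleSquareManyPrimes
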