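import Pool.Agent.H573.AHB.PvN

/-!
# MP_509488_nt: the signatures (2, p, s) and (s, p, 2)

For a positive proportion of the primes `s` (the sum of `1/s` over these primes in `[X^{5/8}, X]` is
bounded below) there are at least `s^δ` primes `q ≡ 1 (mod s)`, depending on `s` only, such that for
all odd primes `p ≤ s^δ` the following holds for coprime positive `x, y` with `y` odd and a perfect
square `z`.

(1) If `x^2 + y^p = z^s`, `y` is a perfect square, and `p ≡ 3 (mod 4)` or `p ∤ z`, then `x` is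
divisible by all these primes `q`, and `x ≥ exp(s^δ)`. (Primitive Pythagorean triples whose
hypotenuse is an `s`-th power and whose odd leg is a `p`-th power.)

(2) If `x^2 + y^p = z^s` or `z^s + y^p = x^2`, and `y` is an `r`-th power for an odd prime
`r ≤ s^δ`, `r ≠ p`, then either `z` is divisible by `p`, by `r` and by all these primes `q`, and
`z ≥ exp(s^δ)`; or `z` is prime to `pr`, `x` is divisible by all these primes `q`, and
`x ≥ exp(s^δ)`.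
-/

namespace Pool.Agent.Results.MP_509488_nt.SquarePlusPowerManyPrimes

open Pool.Agent.H573.AHB

theorem result :
    ∃ δ : ℝ, 0 < δ ∧ ∃ S : Set ℕ, (∀ s ∈ S, s.Prime) ∧
      (∃ c : ℝ, 0 < c ∧ ∃ X₀ : ℕ, ∀ X : ℕ, X₀ ≤ X →
        c ≤ ∑ᶠ s ∈ {s : ℕ | s ∈ S ∧ (X : ℝ) ^ (5 / 8 : ℝ) ≤ s ∧ s ≤ X}, (1 : ℝ) / s) ∧
      ∀ s ∈ S, ∃ G : Finset ℕ, (s : ℝ) ^ δ ≤ (G.card : ℝ) ∧ (∀ q ∈ G, q.Prime ∧ s ∣ q - 1) ∧
        (∀ p : ℕ, p.Prime → p ≠ 2 → (p : ℝ) ≤ (s : ℝ) ^ δ →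
          ∀ x y z : ℕ, 0 < x → 0 < y → 0 < z → Nat.Coprime x y → Odd y → IsSquare y →
            IsSquare z → (p % 4 = 3 ∨ ¬ p ∣ z) → x ^ 2 + y ^ p = z ^ s →
              (∀ q ∈ G, q ∣ x) ∧ Real.exp ((s : ℝ) ^ δ) ≤ x) ∧
        (∀ p r : ℕ, p.Prime → r.Prime → p ≠ 2 → r ≠ 2 → p ≠ r → (p : ℝ) ≤ (s : ℝ) ^ δ →
          (r : ℝ) ≤ (s : ℝ) ^ δ →
          ∀ x y z : ℕ, 0 < x → 0 < y → 0 < z → Nat.Coprime x y → Odd y → (∃ w, y = w ^ r) →
            IsSquare z → (x ^ 2 + y ^ p = z ^ s ∨ z ^ s + y ^ p = x ^ 2) →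
              (p ∣ z ∧ r ∣ z ∧ (∀ q ∈ G, q ∣ z) ∧ Real.exp ((s : ℝ) ^ δ) ≤ z) ∨
              (¬ p ∣ z ∧ ¬ r ∣ z ∧ (∀ q ∈ G, q ∣ x) ∧ Real.exp ((s : ℝ) ^ δ) ≤ x)) := by
  obtain ⟨δ, hδ0, S, hS, hdens⟩ := engine_pairs4
  refine ⟨δ, hδ0, S, fun s hs => (hS s hs).1, hdens, ?_⟩
  intro s hs
  obtain ⟨hsp, hs2, G, hG1, hG2⟩ := hS s hs
  refine ⟨G, hG1, fun q hq => ⟨(hG2 q hq).1, (hG2 q hq).2.2.1⟩, ?_, ?_⟩
  · rintro p hp hp2 hpd x y z hx0 hy0 hz0 hco hy ⟨w, rfl⟩ ⟨t, rfl⟩ hpz heq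
    have hw : Odd w := (Nat.odd_mul.mp hy).1
    have heq' : x ^ 2 + w ^ (2 * p) = t ^ (2 * s) := by
      rw [pow_mul, pow_mul, pow_two w, pow_two t]
      exact heq
    have hcot : Nat.Coprime t x := by
      have h3 : Nat.Coprime ((w * w) ^ p) x := Nat.Coprime.pow_left _ hco.symm
      have h4 : Nat.Coprime ((t * t) ^ s) x := by
        rw [← heq, pow_two]
        exact (Nat.coprime_mul_left_add_left _ _ _).mpr h3
      have h5 : Nat.Coprime (t * t) x :=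
        Nat.Coprime.coprime_dvd_left (dvd_pow_self _ (by omega)) h4
      exact Nat.Coprime.coprime_mul_right h5
    have hpt : p % 4 = 3 ∨ ¬ p ∣ t := hpz.imp_right fun h h' => h (h'.mul_right t)
    have hqx : ∀ q ∈ G, q ∣ x := by
      intro q hq
      obtain ⟨k1, k2, k3, -, k5, k6⟩ := hG2 q hq
      obtain ⟨i, rfl⟩ : ∃ i, p = 2 * i + 1 := hp.odd_of_ne_two hp2
      have hi := hp.two_le
      obtain ⟨k7, k8⟩ := k5 i hpd
      exact hyp_loc i ⟨by omega, hp⟩ s q hsp hs2 k1 k7 k6 k3 k8 x w t hcot hw heq' hpt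
    refine ⟨hqx, (Real.exp_le_exp.mpr hG1).trans (big_of_dvd G x (by omega) ?_)⟩
    intro q hq
    obtain ⟨k1, k2, -⟩ := hG2 q hq
    exact ⟨k1, by omega, hqx q hq⟩
  rintro p r hp hr hp2 hr2 hne hpd hrd x y z hx0 hy0 hz0 hco hy ⟨w, rfl⟩ ⟨a, rfl⟩ heq
  obtain ⟨i, rfl⟩ : ∃ i, p = 2 * i + 1 := hp.odd_of_ne_two hp2
  obtain ⟨j, rfl⟩ : ∃ j, r = 2 * j + 1 := hr.odd_of_ne_two hr2
  have hi := hp.two_le
  have hj := hr.two_le
  have hPR : PR i j := ⟨by omega, by omega, hp, hr, by omega⟩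
  have hs1 : (1 : ℝ) ≤ s := by exact_mod_cast (by omega : 1 ≤ s)
  have hGne : G.Nonempty := by
    rw [← Finset.card_pos]
    have h1 : (0 : ℝ) < (s : ℝ) ^ δ := by positivity
    have h2 : (0 : ℝ) < (G.card : ℝ) := lt_of_lt_of_le h1 hG1
    exact_mod_cast h2
  obtain ⟨q0, hq0⟩ := hGne
  have hw : Odd w := by
    by_contra hcon
    rw [Nat.not_odd_iff_even] at hcon
    have := hcon.pow_of_ne_zero hr.ne_zero
    exact (Nat.not_even_iff_odd.mpr hy) this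
  -- both equations are `x² + w'^{pr} = a^{2s}` with `w' = ± w`
  obtain ⟨w', hwo, heq'⟩ : ∃ w' : ℤ, Odd w' ∧
      (x : ℤ) ^ 2 + w' ^ ((2 * i + 1) * (2 * j + 1)) = (a : ℤ) ^ (2 * s) := by
    have hodd : Odd ((2 * i + 1) * (2 * j + 1)) :=
      (hp.odd_of_ne_two hp2).mul (hr.odd_of_ne_two hr2)
    rcases heq with heq | heq
    · refine ⟨w, (Int.odd_coe_nat w).mpr hw, ?_⟩
      rw [mul_comm (2 * i + 1) (2 * j + 1), pow_mul (w : ℤ), pow_mul (a : ℤ), pow_two (a : ℤ)]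
      exact_mod_cast heq
    · refine ⟨-w, ((Int.odd_coe_nat w).mpr hw).neg, ?_⟩
      rw [hodd.neg_pow, mul_comm (2 * i + 1) (2 * j + 1), pow_mul (w : ℤ), pow_mul (a : ℤ),
        pow_two (a : ℤ)]
      have h1 : ((a : ℤ) * a) ^ s + ((w : ℤ) ^ (2 * j + 1)) ^ (2 * i + 1) = (x : ℤ) ^ 2 := by
        exact_mod_cast heq
      linarith
  have hco' : IsCoprime (a : ℤ) (x : ℤ) := by
    rw [Nat.isCoprime_iff_coprime]
    have h3 : Nat.Coprime ((w ^ (2 * j + 1)) ^ (2 * i + 1)) x := Nat.Coprime.pow_left _ hco.symm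
    have h4 : Nat.Coprime ((a * a) ^ s) x := by
      rcases heq with heq | heq
      · rw [← heq, pow_two]
        exact (Nat.coprime_mul_left_add_left _ _ _).mpr h3
      · have h5 : Nat.Coprime ((a * a) ^ s) (x ^ 2) := by
          rw [← heq]
          exact (Nat.coprime_self_add_right).mpr (by
            have h6 : Nat.Coprime ((w ^ (2 * j + 1)) ^ (2 * i + 1)) (x ^ 2) :=
              Nat.Coprime.pow_right _ h3
            rw [← heq] at h6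
            exact ((Nat.coprime_add_self_right).mp h6).symm)
        exact Nat.Coprime.coprime_dvd_right (dvd_pow_self x two_ne_zero) h5
    have h5 : Nat.Coprime (a * a) x :=
      Nat.Coprime.coprime_dvd_left (dvd_pow_self _ (by omega)) h4
    exact Nat.Coprime.coprime_mul_right h5
  have hdvd : ∀ t : ℕ, t.Prime → (t ∣ a * a ↔ (t : ℤ) ∣ (a : ℤ)) := by
    intro t ht
    rw [Int.natCast_dvd_natCast, ht.dvd_mul, or_self]
  have key : ∀ q ∈ G, ((2 * i + 1) ∣ a * a ∧ (2 * j + 1) ∣ a * a ∧ q ∣ a * a) ∨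
      (¬ (2 * i + 1) ∣ a * a ∧ ¬ (2 * j + 1) ∣ a * a ∧ q ∣ x) := by
    intro q hq
    obtain ⟨k1, k2, k3, k4, -⟩ := hG2 q hq
    obtain ⟨k5, k6, k7⟩ := k4 i j hPR hpd hrd
    rw [hdvd _ hp, hdvd _ hr, hdvd _ k1]
    rcases diff_pr_all i j hPR _ (psiOf_spec 1 (by norm_num) i j hPR) s q hsp hs2 k1 k5 k6 k3
      k7 (a : ℤ) (x : ℤ) w' hco' hwo heq' with ⟨h1, h2, h3⟩ | ⟨h1, h2, h3⟩
    · exact Or.inl ⟨h1, h2, h3⟩
    · exact Or.inr ⟨h1, h2, Int.natCast_dvd_natCast.mp h3⟩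
  have hbig : ∀ t : ℕ, (∀ q ∈ G, q ∣ t) → 0 < t → Real.exp ((s : ℝ) ^ δ) ≤ t := by
    intro t ht ht0
    refine (Real.exp_le_exp.mpr hG1).trans (big_of_dvd G t (by omega) ?_)
    intro q hq
    obtain ⟨k1, k2, -⟩ := hG2 q hq
    exact ⟨k1, by omega, ht q hq⟩
  by_cases hpz : (2 * i + 1) ∣ a * a
  · left
    have hq : ∀ q ∈ G, (2 * j + 1) ∣ a * a ∧ q ∣ a * a := by
      intro q hq
      rcases key q hq with h | h
      · exact h.2
      · exact absurd hpz h.1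
    exact ⟨hpz, (hq q0 hq0).1, fun q hq' => (hq q hq').2, hbig _ (fun q hq' => (hq q hq').2) hz0⟩
  · right
    have hq : ∀ q ∈ G, ¬ (2 * j + 1) ∣ a * a ∧ q ∣ x := by
      intro q hq
      rcases key q hq with h | h
      · exact absurd h.1 hpz
      · exact h.2
    exact ⟨hpz, (hq q0 hq0).1, fun q hq' => (hq q hq').2, hbig _ (fun q hq' => (hq q hq').2) hx0⟩

end Pool.Agent.Results.MP_509488_nt.SquarePlusPowerManyPrimes
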